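import Pool.Agent.L5helper23.RP.Final2
import Pool.Agent.L5helper23.RP.Sharp2

/-!
# At most `r / 3` independent exponents at infinity for systems with monodromy group `PSL₂(ℤ)`

For the systems `f' = (b / t + c / (t - 1)) f` of rank `r` whose local monodromies at `0` and `1` have
finite orders dividing `p` and `q`, which are representations of the free product of two cyclic
groups. For `p = 3`, `q = 2` these are the systems with monodromy representations of `PSL₂(ℤ)` to which
the whole conjecture reduces, with the residue `diag (0, -1/3, -2/3)` at `0` and minus half a projector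
at `1`. If the `p`-curvature is nonzero only for the primes of a set of small lower density, then more
than `r (1 - 1 / p - 1 / q + 1 / lcm (p, q))` exponents at infinity (`r / 3` for `PSL₂(ℤ)`) always
satisfy an integral relation with coefficients bounded in terms of `r` (and `p`, `q`). For arbitrary
exponents at `0` and `1`, with `k₀` and `k₁` classes modulo the integers and distinct sums of two
classes, more than `r (1 - 1 / k₀) (1 - 1 / k₁)` exponents at infinity satisfy such a relation together
with the exponents at `0` and `1`. The bound `r / 3` for `PSL₂(ℤ)` is optimal for all `r` divisible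
by `6`.

Proof. The exponents lie on one of finitely many torsion cosets all of whose points satisfy the
inequalities for line bundles. If the exponents in `A` were independent on such a coset, then it would
contain for every real number `a` a point with the same exponents at `0` and `1` and with all exponents
in `A` at infinity equal to `a`. Let `v`, `v'` be real numbers and `s = -(v + w)`, `t = -(v' + w')` with
`s < a < t`. The inequality for line bundles with the weights `v`, `w` and slightly more than `s` at the
three points, and the one for the dual bundle with the weights `-v'`, `-w'` and slightly more than `-t`,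
give an upper bound for the number of the exponents between `s` and `t`, and so for the number of the
elements of `A`. The mean of these bounds over all arcs between neighbouring opposite sums `-(v + w)`,
where `v` and `w` are the exponents at `0` and `1` (or all multiples of `1 / p` and `1 / q`), is the
bound in the theorem. For the optimality take the push-forward along the `j`-invariant of the
`λ`-line of direct sums of systems of rank one with exponents in general position; the residue at
infinity is triangular in a suitable basis.
-/

set_option autoImplicit false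

open Pool.Agent.Y227.SS Pool.Agent.L5helper23.RP Polynomial
open Pool.Agent.Y227.TP (Few BadPt DiagExps)
open Pool.Agent.L5helper79.PCR (PCurvQ OrderThreeTwo)

namespace Pool.Agent.Results.MP_5e5ff1_ag.IndependentExponents

universe u

/-- see the claim file -/
theorem result :
    (∀ r : ℕ, ∃ (ε : ℝ) (B : ℕ), 0 < ε ∧
      ∀ (R : Type u) [CommRing R] [IsDomain R] [CharZero R] [Algebra.FiniteType ℤ R]
        [Algebra.IsAlgebraic ℤ R] (b c : Matrix (Fin r) (Fin r) R),
        Few (BadPt ![0, 1] ![b, c]) ε →
        ∃ lam : Fin 3 → Fin r → ℚ, DiagExps b (lam 0) ∧ DiagExps c (lam 1) ∧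
          DiagExps (b + c) (fun l => -lam 2 l) ∧
          (∀ p q : ℕ, 0 < p → 0 < q → (∀ l, ∃ m : ℤ, (p : ℚ) * lam 0 l = m) →
            (∀ l, ∃ m : ℤ, (q : ℚ) * lam 1 l = m) → ∀ A : Finset (Fin r),
              (r : ℝ) * (1 - 1 / p - 1 / q + 1 / (Nat.lcm p q : ℕ)) < A.card →
              ∃ k : Fin r → ℤ, (∃ l, k l ≠ 0) ∧ (∀ l, l ∉ A → k l = 0) ∧
                (∀ l, |k l| ≤ B * p * q) ∧ ∃ z : ℤ, ∑ l, (k l : ℚ) * lam 2 l = z) ∧
          (DistinctSums (lam 0) (lam 1) → ∀ A : Finset (Fin r),
            (r : ℝ) * (1 - 1 / (classes (lam 0)).card) * (1 - 1 / (classes (lam 1)).card) < A.card →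
              ∃ k : Fin 3 → Fin r → ℤ, (∃ l, k 2 l ≠ 0) ∧ (∀ l, l ∉ A → k 2 l = 0) ∧
                (∀ i l, |k i l| ≤ B) ∧ ∃ z : ℤ, ∑ i, ∑ l, (k i l : ℚ) * lam i l = z)) ∧
    ∀ R B : ℕ, ∃ (n : ℕ) (b c : Matrix (Fin (R * 6)) (Fin (R * 6)) ℤ)
      (mu : Fin (R * 6) → ℚ) (A : Finset (Fin (R * 6))), 0 < n ∧ PCurvQ n b c ∧
        OrderThreeTwo n b c ∧
        (Matrix.of fun i j => ((b i j + c i j : ℤ) : ℚ) / n).charpoly = ∏ l, (X - C (-mu l)) ∧
        A.card = 2 * R ∧ ∀ k : Fin (R * 6) → ℤ, (∀ l, l ∉ A → k l = 0) → (∀ l, |k l| ≤ B) →
          (∃ z : ℤ, ∑ l, (k l : ℚ) * mu l = z) → k = 0 := by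
  refine ⟨fun r => ?_, sharp⟩
  obtain ⟨ε, M, B, hε, -, h⟩ := final'.{u} r
  refine ⟨ε, B, hε, ?_⟩
  intro R _ _ _ _ _ b c hfew
  obtain ⟨lam, h1, h2, h3, -, h4, -⟩ := h R b c hfew
  refine ⟨lam, h1, h2, h3, fun p q hp hq hp0 hq0 A hA => h4.2 p q hp hq hp0 hq0 A ?_, h4.1⟩
  unfold bd
  push_cast
  exact hA

end Pool.Agent.Results.MP_5e5ff1_ag.IndependentExponents
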