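import Pool.Agent.L5helper23.RP.Final

/-!
# The multiples of the exponents by integers prime to `M(r)`

For every rank `r` there are `ε > 0` and `M` such that for all systems
`f' = (b / t + c / (t - 1)) f` of rank `r` over orders in number fields whose `p`-curvature is nonzero
only for the primes of a set of lower density less than `ε`, the multiples `e λ` of the exponents `λ`
by **all** integers `e` prime to `M`, also by those which are not prime to the denominators of the
exponents, are the weights of semistable parabolic bundles of degree zero. Hence the multiplicities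
of the exponents modulo the ring of the rational numbers with denominators prime to `M` satisfy the
inequalities for multiplicities, and the exponents at two points are opposite to each other, after a
permutation and a shift, modulo this ring if the exponents at the third point are all congruent
modulo it. If the exponents at `0` and `1` are equidistributed in the multiples of `1 / p` and `1 / q`
(for `p = 3`, `q = 2` these are the systems with monodromy group `PSL₂(ℤ)` to which the conjecture
reduces), the number of the multiples `e λ` of the exponents at infinity in an arc of length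
`s / lcm (p, q)` is at most `r (1 - 1 / p - 1 / q + s / lcm (p, q))`.

Proof. The exponents of the conjugate systems lie on finitely many torsion cosets which consist of
the weights of semistable parabolic bundles. Let `M` be a common denominator of the base points of
these cosets, which depends only on `r`. If `N` is a common denominator of the exponents, every `e`
prime to `M` is congruent modulo `N` to `f a` with `a` prime to `N` and `f` congruent to one modulo
`M`, and the coset which contains `a λ` contains `f a λ` too.
-/

set_option autoImplicit false

open Pool.Agent.Y227.SS Pool.Agent.L5helper23.RP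
open Pool.Agent.Y227.TP (Few BadPt DiagExps)

namespace Pool.Agent.Results.MP_5e5ff1_ag.MultiplesPrimeToM

universe u

open scoped Classical in
/-- see the claim file -/
theorem result (r : ℕ) :
    ∃ (ε : ℝ) (M : ℕ), 0 < ε ∧ 0 < M ∧
      ∀ (R : Type u) [CommRing R] [IsDomain R] [CharZero R] [Algebra.FiniteType ℤ R]
        [Algebra.IsAlgebraic ℤ R] (b c : Matrix (Fin r) (Fin r) R),
        Few (BadPt ![0, 1] ![b, c]) ε →
        ∃ lam : Fin 3 → Fin r → ℚ, DiagExps b (lam 0) ∧ DiagExps c (lam 1) ∧
          DiagExps (b + c) (fun l => -lam 2 l) ∧
          (∀ e : ℤ, IsCoprime e (M : ℤ) →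
            SemistableWeights ℂ (fun (j : Fin 2) l => (e : ℝ) * lam j.castSucc l)
              (fun l => -((e : ℝ) * lam 2 l))) ∧
          (∀ x y z : Fin 3, x ≠ y → y ≠ z → x ≠ z → ∀ k l : Fin r,
            mult M (lam y) (lam y k) + mult M (lam z) (lam z l) ≤
              r + mult M (lam x) (-lam y k - lam z l)) ∧
          (∀ x y z : Fin 3, x ≠ y → y ≠ z → x ≠ z →
            (∀ l l', PrimeDen M (lam z l - lam z l')) →
              ∃ σ : Equiv.Perm (Fin r), ∀ l k, PrimeDen M (lam x l + lam y (σ l) + lam z k)) ∧
          ∀ p q : ℕ, 0 < p → 0 < q → Equi p (lam 0) → Equi q (lam 1) →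
            ∀ e : ℤ, IsCoprime e (M : ℤ) → ∀ j k : ℤ, j < k →
              ((Finset.univ.filter fun l => InArc p q j k ((e : ℝ) * lam 2 l)).card : ℝ) ≤
                (r : ℝ) * (1 - 1 / p - 1 / q + ((k - j : ℤ) : ℝ) / (Nat.lcm p q : ℕ)) := by
  obtain ⟨ε, M, B, hε, hM, h⟩ := final.{u} r
  refine ⟨ε, M, hε, hM, ?_⟩
  intro R _ _ _ _ _ b c hfew
  obtain ⟨lam, h1, h2, h3, h4, h5⟩ := h R b c hfew
  exact ⟨lam, h1, h2, h3, h4.1, h4.2.1, h4.2.2, fun p q hp hq h6 h7 => (h5 p q hp hq h6 h7).1⟩

end Pool.Agent.Results.MP_5e5ff1_ag.MultiplesPrimeToM
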