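import Pool.Agent.L5helper79.PCR.Proj3

/-!
# Grothendieck's `p`-curvature conjecture: number fields, all residues ⟸ one rational projector

For every system `f' = (b / t + c / (t - 1)) f` of rank `r` over a number field `K`, put
`R = r [K : ℚ]`.  There is an idempotent rational matrix `P / m` of size `6 R` and rank `3 R` such
that, with `D = diag (0, -1/3, -2/3)` (each entry `2 R` times), the system
`f' = (D / t - P / (2 m (t - 1))) f` over `ℚ` has the following properties: its `p`-curvature
vanishes for almost all `p` if that of the given system vanishes for almost all maximal ideals, and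
the given system has a full set of algebraic solutions if this one has one.  So the conjecture for
all systems over all number fields follows from these rational systems, whose local monodromies at
`0` and `1` have orders `3` and `2`.

Proof.  Take the push-forward along `t = j(s) = 4 (s² - s + 1)³ / (27 s² (s - 1)²)` of the
restriction of scalars to `ℚ`, in the basis `s ^ l ω_i`, where its residues `B`, `C` are constant
with `B (3 B + 1) (3 B + 2) = 0`, `C (2 C + 1) = 0`.  In characteristic `p` the map
`(y_{l,i}) ↦ ∑ s ^ l ω_i y_{l,i}` intertwines the two connections up to the factor `ds/dt`, and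
`∇ ^ p = 0` implies `(ds/dt ∇) ^ p = 0` by Cartier's theorem.  The maps for the maximal ideals above
`p` are jointly injective if `p` does not divide the discriminant.  The traces of `B`, `B ^ 2`, `C`
do not depend on the system, so that `B` is conjugate over `ℚ` to `D` and `-2 C` has rank `3 R`.
-/

set_option autoImplicit false

namespace Pool.Agent.Results.MP_5e5ff1_ag.RationalProjector

open Pool.Agent.L5helper79.PCR NumberField

/-- see the claim file -/
theorem result :
    (∀ (K : Type) [Field K] [NumberField K] (r n : ℕ), 0 < n →
      ∀ b c : Matrix (Fin r) (Fin r) (𝓞 K),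
      ∃ (m : ℕ) (P : Matrix (Fin 3 × Fin (2 * (r * Module.finrank ℚ K)))
          (Fin 3 × Fin (2 * (r * Module.finrank ℚ K))) ℤ),
        0 < m ∧ P * P = m • P ∧ P.trace = 3 * (r * Module.finrank ℚ K : ℕ) * m ∧
        (PCurvK n b c → ProjPCurv (r * Module.finrank ℚ K) m P) ∧
        ∀ σ : K →+* ℂ, ProjAlgSol (r * Module.finrank ℚ K) m P →
          AlgSol (redMat (σ.comp (algebraMap (𝓞 K) K)) n b)
            (redMat (σ.comp (algebraMap (𝓞 K) K)) n c)) ∧
    ((∀ (R m : ℕ) (P : Matrix (Fin 3 × Fin (2 * R)) (Fin 3 × Fin (2 * R)) ℤ), 0 < m →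
        P * P = m • P → P.trace = 3 * R * m → ProjPCurv R m P → ProjAlgSol R m P) →
      ∀ (K : Type) [Field K] [NumberField K] (σ : K →+* ℂ) (r n : ℕ), 0 < n →
        ∀ b c : Matrix (Fin r) (Fin r) (𝓞 K), PCurvK n b c →
          AlgSol (redMat (σ.comp (algebraMap (𝓞 K) K)) n b)
            (redMat (σ.comp (algebraMap (𝓞 K) K)) n c)) := by
  refine ⟨fun K _ _ r n hn b c => pointwise_proj K r n hn b c, fun H K _ _ σ r n hn b c h => ?_⟩
  obtain ⟨m, P, h1, h2, h3, h4, h5⟩ := pointwise_proj K r n hn b c
  exact h5 σ (H _ m P h1 h2 h3 (h4 h))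

end Pool.Agent.Results.MP_5e5ff1_ag.RationalProjector
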